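import Pool.Agent.Helper25.KV.Final

/-!
# `MP_66be51_an`: infinite-energy solutions of critical gKdV with every rate in `(1/3, 3/7)`

`Pool.Agent.Helper25.KV.IsSolution κ T u`: `u ∈ C((0,T]; H^κ)` solves `u_t + (u_xx + u^5)_x = 0`, as the
limit in `C([t0,T]; H^κ)`, for every `t0 > 0`, of smooth solutions, and in the sense of distributions.
`InH1`: membership in `H^1`.  `Concentrates ν T u`: the definition of the problem file.
-/

/-- For every `ν ∈ (1/3, 3/7)` there is an infinite-energy `H^κ` solution of the quintic generalised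
KdV equation which concentrates at `t = 0` with rate `ν`. -/
theorem Pool.Agent.Results.MP_66be51_an.InfiniteEnergyRates.result :
    ∀ ν : ℝ, 1 / 3 < ν → ν < 3 / 7 → ∃ (κ T : ℝ) (u : ℝ → ℝ → ℝ), 0 < κ ∧ κ < 1 ∧ 0 < T ∧
      Pool.Agent.Helper25.KV.IsSolution κ T u ∧
      (∀ t ∈ Set.Ioc 0 T, ¬ Pool.Agent.Helper25.KV.InH1 (u t)) ∧
      Pool.Agent.Helper25.KV.Concentrates ν T u :=
  Pool.Agent.Helper25.KV.final
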